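import Pool.Agent.H84.GU.IN3

/-!
# The inequality for the exponents of three lattices, with a shift (MP_52e316_nt, board gb)
-/

set_option autoImplicit false

namespace Pool.Agent.H20.GB

open MeasureTheory Pool.Agent.H84.GU

/-- the inequality for the exponents, with a shift -/
def T_IN4 : Prop := ∀ (m : ℕ) (x y z : Fin m → ℝ) (d : ℝ), Monotone x → Monotone y → Monotone z →
  (∀ i, y i ≤ x i) → (∀ i, y i ≤ z i) →
    ∑ i, ∑ j, (max (y j - x i) 0 + max (y j - z i) 0 + max (x i - z j - d) 0) ≤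
      m * max (∑ i, x i - ∑ i, z i - m * d) 0 +
        ∑ i, ∑ j, (if i < j then (x j - x i) + (y j - y i) + (z j - z i) else 0)

/-- the pointwise inequality -/
lemma ptw4 {m X Y Z : ℝ} (hm : 0 < m) (h0 : 0 ≤ Y) (h1 : Y ≤ X) (h2 : Y ≤ Z) (h3 : X ≤ m)
    (h4 : Z ≤ m) :
    Y * (m - X) + Y * (m - Z) + (X * (m - Z) * (1 - (X - Z) / m) +
      (X * Z + (m - X) * (m - Z)) * max (-((X - Z) / m)) 0) ≤
      X * (m - X) + Y * (m - Y) + Z * (m - Z) := by
  rcases le_total Z X with h | h
  · have e1 : max (-((X - Z) / m)) 0 = 0 :=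
      max_eq_right (neg_nonpos.2 (div_nonneg (sub_nonneg.2 h) hm.le))
    rw [e1]
    have e2 : X * (m - X) + Y * (m - Y) + Z * (m - Z) - (Y * (m - X) + Y * (m - Z) +
        (X * (m - Z) * (1 - (X - Z) / m) + (X * Z + (m - X) * (m - Z)) * 0)) =
        (Z * (X - Z) * (m - X) + m * (Z - Y) * (m - X + Y)) / m := by
      field_simp
      ring
    have e3 : 0 ≤ (Z * (X - Z) * (m - X) + m * (Z - Y) * (m - X + Y)) / m := by
      refine div_nonneg (add_nonneg ?_ ?_) hm.le
      · exact mul_nonneg (mul_nonneg (h0.trans h2) (sub_nonneg.2 h)) (sub_nonneg.2 h3)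
      · exact mul_nonneg (mul_nonneg hm.le (sub_nonneg.2 h2)) (by linarith)
    linarith
  · have e1 : max (-((X - Z) / m)) 0 = (Z - X) / m := by
      rw [← neg_div, neg_sub]
      exact max_eq_left (div_nonneg (sub_nonneg.2 h) hm.le)
    rw [e1]
    have e2 : X * (m - X) + Y * (m - Y) + Z * (m - Z) - (Y * (m - X) + Y * (m - Z) +
        (X * (m - Z) * (1 - (X - Z) / m) + (X * Z + (m - X) * (m - Z)) * ((Z - X) / m))) =
        (X * (Z - X) * (m - Z) + m * (X - Y) * (m - Z + Y)) / m := by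
      field_simp
      ring
    have e3 : 0 ≤ (X * (Z - X) * (m - Z) + m * (X - Y) * (m - Z + Y)) / m := by
      refine div_nonneg (add_nonneg ?_ ?_) hm.le
      · exact mul_nonneg (mul_nonneg (h0.trans h1) (sub_nonneg.2 h)) (sub_nonneg.2 h4)
      · exact mul_nonneg (mul_nonneg hm.le (sub_nonneg.2 h1)) (by linarith)
    linarith

lemma st_or (p t : ℝ) : st p t = 0 ∨ st p t = 1 := by
  unfold st
  split_ifs
  · exact Or.inr rfl
  · exact Or.inl rfl

/-- the positive part at one level -/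
lemma pos4 {a c δ : ℝ} (ha : a = 0 ∨ a = 1) (hc : c = 0 ∨ c = 1) (h1 : δ ≤ 1) (h2 : -1 ≤ δ) :
    max (a - c - δ) 0 = a * (1 - c) * (1 - δ) + (a * c + (1 - a) * (1 - c)) * max (-δ) 0 := by
  rcases ha with rfl | rfl <;> rcases hc with rfl | rfl
  · simp
  · rw [max_eq_right (by linarith : (0 : ℝ) - 1 - δ ≤ 0)]
    ring
  · rw [max_eq_left (by linarith : (0 : ℝ) ≤ 1 - 0 - δ)]
    ring
  · simp

lemma lv_pos4 {m : ℕ} (x z : Fin m → ℝ) (t δ : ℝ) (h1 : δ ≤ 1) (h2 : -1 ≤ δ) :
    ∑ i, ∑ j, max (st (x i) t - st (z j) t - δ) 0 =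
      lv x t * (m - lv z t) * (1 - δ) +
        (lv x t * lv z t + (m - lv x t) * (m - lv z t)) * max (-δ) 0 := by
  have e1 : ∀ i j, max (st (x i) t - st (z j) t - δ) 0 =
      st (x i) t * (1 - st (z j) t) * (1 - δ) + (st (x i) t * st (z j) t +
        (1 - st (x i) t) * (1 - st (z j) t)) * max (-δ) 0 := fun i j =>
    pos4 (st_or _ _) (st_or _ _) h1 h2
  have s1 : ∑ j : Fin m, (1 - st (z j) t) = m - lv z t := by
    rw [Finset.sum_sub_distrib]
    simp [lv]
  have s2 : ∑ i : Fin m, (1 - st (x i) t) = m - lv x t := by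
    rw [Finset.sum_sub_distrib]
    simp [lv]
  have e2 : ∀ i, ∑ j, max (st (x i) t - st (z j) t - δ) 0 =
      st (x i) t * ((m - lv z t) * (1 - δ)) + (st (x i) t * lv z t +
        (1 - st (x i) t) * (m - lv z t)) * max (-δ) 0 := by
    intro i
    rw [Finset.sum_congr rfl fun j _ => e1 i j, Finset.sum_add_distrib, ← Finset.sum_mul,
      ← Finset.sum_mul, ← Finset.mul_sum, Finset.sum_add_distrib, ← Finset.mul_sum,
      ← Finset.mul_sum, s1]
    have : ∑ j : Fin m, st (z j) t = lv z t := rfl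
    rw [this]
    ring
  rw [Finset.sum_congr rfl fun i _ => e2 i, Finset.sum_add_distrib, ← Finset.sum_mul,
    ← Finset.sum_mul, Finset.sum_add_distrib, ← Finset.sum_mul, ← Finset.sum_mul, s2]
  have : ∑ i : Fin m, st (x i) t = lv x t := rfl
  rw [this]
  ring

theorem pf_IN4 : T_IN4 := by
  intro m x y z d hx hy hz hyx hyz
  rcases Nat.eq_zero_or_pos m with rfl | hm
  · simp
  have hmR : (0 : ℝ) < m := by exact_mod_cast hm
  set R : ℝ := ∑ i, (|x i| + |y i| + |z i|) with hR
  have hb : ∀ i, |x i| + |y i| + |z i| ≤ R := by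
    intro i
    exact Finset.single_le_sum (f := fun i => |x i| + |y i| + |z i|)
      (fun j _ => by positivity) (Finset.mem_univ i)
  have bx : ∀ i, |x i| ≤ R := fun i => by
    linarith [hb i, abs_nonneg (y i), abs_nonneg (z i)]
  have bY : ∀ i, |y i| ≤ R := fun i => by
    linarith [hb i, abs_nonneg (x i), abs_nonneg (z i)]
  have bz : ∀ i, |z i| ≤ R := fun i => by
    linarith [hb i, abs_nonneg (y i), abs_nonneg (x i)]
  have x1 : ∀ i, -R ≤ x i := fun i => (abs_le.1 (bx i)).1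
  have x2 : ∀ i, x i ≤ R := fun i => (abs_le.1 (bx i)).2
  have y1 : ∀ i, -R ≤ y i := fun i => (abs_le.1 (bY i)).1
  have y2 : ∀ i, y i ≤ R := fun i => (abs_le.1 (bY i)).2
  have z1 : ∀ i, -R ≤ z i := fun i => (abs_le.1 (bz i)).1
  have z2 : ∀ i, z i ≤ R := fun i => (abs_le.1 (bz i)).2
  -- the integrals
  obtain ⟨i1, e1⟩ := dsum (R := R) x y x1 y2
  obtain ⟨i2, e2⟩ := dsum (R := R) z y z1 y2
  obtain ⟨i4, e4⟩ := dsum (R := R) x x x1 x2
  obtain ⟨i5, e5⟩ := dsum (R := R) y y y1 y2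
  obtain ⟨i6, e6⟩ := dsum (R := R) z z z1 z2
  obtain ⟨i7, e7⟩ := ssum (R := R) x x1 x2
  obtain ⟨i8, e8⟩ := ssum (R := R) z z1 z2
  set dl : ℝ → ℝ := fun t => (lv x t - lv z t) / m with hdl
  set ds : ℝ := (∑ i, x i - ∑ i, z i) / m with hds
  have idl : IntegrableOn dl (Set.Ico (-R) R) := (i7.sub i8).div_const _
  have edl : ∫ t in Set.Ico (-R) R, dl t = ds := by
    rw [hdl, integral_div, integral_sub i7 i8, e7, e8, hds]
    congr 1
    ring
  have dl1 : ∀ t, dl t ≤ 1 := fun t => by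
    simp only [hdl]
    rw [div_le_one hmR]
    have := lv_le x t
    have := lv_nonneg z t
    linarith
  have dl2 : ∀ t, -1 ≤ dl t := fun t => by
    simp only [hdl]
    rw [le_div_iff₀ hmR]
    have := lv_le z t
    have := lv_nonneg x t
    linarith
  -- one pair
  have hpi : ∀ i j, IntegrableOn (fun t => st (x i) t - st (z j) t - dl t) (Set.Ico (-R) R) :=
    fun i j => ((ig_st R (x i)).sub (ig_st R (z j))).sub idl
  have hpp : ∀ i j, IntegrableOn (fun t => max (st (x i) t - st (z j) t - dl t) 0)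
      (Set.Ico (-R) R) := fun i j => (hpi i j).pos_part
  have hpair : ∀ i j, max (x i - z j - ds) 0 ≤
      ∫ t in Set.Ico (-R) R, max (st (x i) t - st (z j) t - dl t) 0 := by
    intro i j
    have h1 : ∫ t in Set.Ico (-R) R, (st (x i) t - st (z j) t - dl t) = x i - z j - ds := by
      have h5 : IntegrableOn (fun t => st (x i) t - st (z j) t) (Set.Ico (-R) R) :=
        (ig_st R (x i)).sub (ig_st R (z j))
      rw [integral_sub h5 idl, integral_sub (ig_st R (x i)) (ig_st R (z j)), edl, int_st (x2 i) (x1 i),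
        int_st (z2 j) (z1 j)]
      ring
    refine max_le ?_ (integral_nonneg fun t => le_max_right _ _)
    rw [← h1]
    exact integral_mono (hpi i j) (hpp i j) fun t => le_max_left _ _
  have hI3 : IntegrableOn (fun t => ∑ i, ∑ j, max (st (x i) t - st (z j) t - dl t) 0)
      (Set.Ico (-R) R) :=
    integrable_finsetSum _ fun i _ => integrable_finsetSum _ fun j _ => hpp i j
  have hs3 : ∑ i, ∑ j, max (x i - z j - ds) 0 ≤
      ∫ t in Set.Ico (-R) R, ∑ i, ∑ j, max (st (x i) t - st (z j) t - dl t) 0 := by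
    rw [integral_finsetSum _ fun i _ => integrable_finsetSum _ fun j _ => hpp i j]
    refine Finset.sum_le_sum fun i _ => ?_
    rw [integral_finsetSum _ fun j _ => hpp i j]
    exact Finset.sum_le_sum fun j _ => hpair i j
  have key : (∫ t in Set.Ico (-R) R, (lv y t * (m - lv x t) + lv y t * (m - lv z t) +
      ∑ i, ∑ j, max (st (x i) t - st (z j) t - dl t) 0)) ≤
      ∫ t in Set.Ico (-R) R, (lv x t * (m - lv x t) + lv y t * (m - lv y t) +
        lv z t * (m - lv z t)) := by
    refine setIntegral_mono ((i1.add i2).add hI3) ((i4.add i5).add i6) fun t => ?_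
    simp only
    rw [lv_pos4 x z t (dl t) (dl1 t) (dl2 t)]
    exact ptw4 hmR (lv_nonneg y t) (lv_mono hyx t) (lv_mono hyz t) (lv_le x t) (lv_le z t)
  have k0 : ∫ t in Set.Ico (-R) R, (lv y t * (m - lv x t) + lv y t * (m - lv z t) +
      ∑ i, ∑ j, max (st (x i) t - st (z j) t - dl t) 0) =
      ∑ i, ∑ j, max (y j - x i) 0 + ∑ i, ∑ j, max (y j - z i) 0 +
      ∫ t in Set.Ico (-R) R, ∑ i, ∑ j, max (st (x i) t - st (z j) t - dl t) 0 := by
    have h := integral_add (i1.add i2) hI3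
    have h' := integral_add i1 i2
    simp only [Pi.add_apply] at h
    rw [h, h', e1, e2]
  have k00 : ∫ t in Set.Ico (-R) R, (lv x t * (m - lv x t) + lv y t * (m - lv y t) +
        lv z t * (m - lv z t)) = ∑ i, ∑ j, max (x j - x i) 0 + ∑ i, ∑ j, max (y j - y i) 0 +
        ∑ i, ∑ j, max (z j - z i) 0 := by
    have h := integral_add (i4.add i5) i6
    have h' := integral_add i4 i5
    simp only [Pi.add_apply] at h
    rw [h, h', e4, e5, e6]
  rw [k0, k00] at key
  -- from the central shift to all the shifts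
  have k1 : ∑ i, ∑ j, max (x i - z j - d) 0 ≤ ∑ i, ∑ j, max (x i - z j - ds) 0 +
      m * max (∑ i, x i - ∑ i, z i - m * d) 0 := by
    have h1 : ∀ i j, max (x i - z j - d) 0 ≤ max (x i - z j - ds) 0 + max (ds - d) 0 := by
      intro i j
      refine max_le ?_ (add_nonneg (le_max_right _ _) (le_max_right _ _))
      have := le_max_left (x i - z j - ds) 0
      have := le_max_left (ds - d) 0
      linarith
    have h2 : ∑ i, ∑ j, max (x i - z j - d) 0 ≤
        ∑ i : Fin m, ∑ j : Fin m, (max (x i - z j - ds) 0 + max (ds - d) 0) :=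
      Finset.sum_le_sum fun i _ => Finset.sum_le_sum fun j _ => h1 i j
    have h3 : ∑ i : Fin m, ∑ j : Fin m, (max (x i - z j - ds) 0 + max (ds - d) 0) =
        ∑ i, ∑ j, max (x i - z j - ds) 0 + m * (m * max (ds - d) 0) := by
      simp only [Finset.sum_add_distrib, Finset.sum_const, Finset.card_univ, Fintype.card_fin,
        nsmul_eq_mul]
    have h4 : (m : ℝ) * max (ds - d) 0 = max (∑ i, x i - ∑ i, z i - m * d) 0 := by
      rw [mul_max_of_nonneg _ _ hmR.le, mul_zero, mul_sub, hds, mul_div_cancel₀ _ hmR.ne']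
    rw [h3, h4] at h2
    exact h2
  have k2 : ∑ i, ∑ j, (if i < j then (x j - x i) + (y j - y i) + (z j - z i) else 0) =
      ∑ i, ∑ j, max (x j - x i) 0 + ∑ i, ∑ j, max (y j - y i) 0 +
        ∑ i, ∑ j, max (z j - z i) 0 := by
    rw [← mono_sum x hx, ← mono_sum y hy, ← mono_sum z hz, ← Finset.sum_add_distrib,
      ← Finset.sum_add_distrib]
    refine Finset.sum_congr rfl fun i _ => ?_
    rw [← Finset.sum_add_distrib, ← Finset.sum_add_distrib]
    refine Finset.sum_congr rfl fun j _ => ?_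
    split_ifs <;> ring
  have k3 : ∑ i, ∑ j, (max (y j - x i) 0 + max (y j - z i) 0 + max (x i - z j - d) 0) =
      ∑ i, ∑ j, max (y j - x i) 0 + ∑ i, ∑ j, max (y j - z i) 0 +
        ∑ i, ∑ j, max (x i - z j - d) 0 := by
    simp only [Finset.sum_add_distrib]
  rw [k2, k3]
  linarith [key, k1, hs3]

end Pool.Agent.H20.GB
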